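import Mathlib

/-!
# Noetherianity up to increasing maps of `ℂ[a_i, b_i : i ∈ ℕ]` (Cohen)
-/

set_option autoImplicit false

namespace Pool.Agent.W61h.FGS

open MvPolynomial OrderDual

abbrev T : Type := ℕᵒᵈ

def tau (ρ : ℕ → ℕ) (n : T) : T := toDual (2 * ρ (ofDual n / 2) + ofDual n % 2)

theorem tau_strictMono {ρ : ℕ → ℕ} (h : StrictMono ρ) : StrictMono (tau ρ) := by
  intro a b hab
  have hab' : ofDual b < ofDual a := hab
  change 2 * ρ (ofDual b / 2) + ofDual b % 2 < 2 * ρ (ofDual a / 2) + ofDual a % 2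
  generalize ofDual a = x at *
  generalize ofDual b = y at *
  rcases Nat.lt_or_ge (y / 2) (x / 2) with h1 | h1
  · have := h h1
    omega
  · have h2 : y / 2 = x / 2 := by omega
    rw [h2]
    omega

theorem lex_map {τ : T → T} (hτ : StrictMono τ) {a b : T →₀ ℕ} (h : toLex a < toLex b) :
    toLex (a.mapDomain τ) < toLex (b.mapDomain τ) := by
  rw [Finsupp.Lex.lt_iff] at h ⊢
  obtain ⟨i, h1, h2⟩ := h
  refine ⟨τ i, fun j hj => ?_, ?_⟩
  · by_cases hr : j ∈ Set.range τ
    · obtain ⟨k, rfl⟩ := hr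
      change a.mapDomain τ (τ k) = b.mapDomain τ (τ k)
      rw [Finsupp.mapDomain_apply hτ.injective, Finsupp.mapDomain_apply hτ.injective]
      exact h1 k (hτ.lt_iff_lt.mp hj)
    · change a.mapDomain τ j = b.mapDomain τ j
      rw [Finsupp.mapDomain_notin_range _ _ hr, Finsupp.mapDomain_notin_range _ _ hr]
  · change a.mapDomain τ (τ i) < b.mapDomain τ (τ i)
    rw [Finsupp.mapDomain_apply hτ.injective, Finsupp.mapDomain_apply hτ.injective]
    exact h2

def word (m : T →₀ ℕ) (N : ℕ) : List (ℕ × ℕ) :=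
  (List.range N).map fun i => (m (toDual (2 * i)), m (toDual (2 * i + 1)))

theorem wqo (m : ℕ → (T →₀ ℕ)) :
    ∃ i j, i < j ∧ ∃ ρ : ℕ → ℕ, StrictMono ρ ∧ (m i).mapDomain (tau ρ) ≤ m j := by
  classical
  have hN : ∀ k, ∃ N : ℕ, ∀ n : T, N ≤ ofDual n / 2 → m k n = 0 := by
    intro k
    refine ⟨(m k).support.sup (fun n => (ofDual n : ℕ)) + 1, fun n hn => ?_⟩
    by_contra h
    have h1 : (ofDual n : ℕ) ≤ (m k).support.sup (fun n => (ofDual n : ℕ)) :=
      Finset.le_sup (f := fun n : T => (ofDual n : ℕ)) (Finsupp.mem_support_iff.mpr h)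
    omega
  choose N hN using hN
  have h0 : (Set.univ : Set (ℕ × ℕ)).PartiallyWellOrderedOn (· ≤ ·) :=
    Set.partiallyWellOrderedOn_univ_iff.mpr wellQuasiOrdered_le
  have h1 := Set.PartiallyWellOrderedOn.partiallyWellOrderedOn_sublistForall₂ (· ≤ ·) h0
  obtain ⟨i, j, hij, h2⟩ := h1 (fun k => ⟨word (m k) (N k), fun x _ => Set.mem_univ _⟩)
  change List.SublistForall₂ (· ≤ ·) (word (m i) (N i)) (word (m j) (N j)) at h2
  refine ⟨i, j, hij, ?_⟩
  rw [List.sublistForall₂_iff] at h2
  obtain ⟨l, h3, h4⟩ := h2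
  rw [List.sublist_iff_exists_orderEmbedding_getElem?_eq] at h4
  obtain ⟨f, hf⟩ := h4
  refine ⟨f, f.strictMono, ?_⟩
  intro n
  by_cases hr : n ∈ Set.range (tau f)
  · obtain ⟨k, rfl⟩ := hr
    rw [Finsupp.mapDomain_apply (tau_strictMono f.strictMono).injective]
    rcases Nat.lt_or_ge (ofDual k / 2) (N i) with h5 | h5
    · have hlen : l.length = N i := by
        rw [← h3.length_eq]; simp [word]
      have h6 := hf (ofDual k / 2)
      have h7 : l[ofDual k / 2]? = some (l[ofDual k / 2]'(by omega)) :=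
        List.getElem?_eq_getElem _
      rw [h7] at h6
      have h8 := List.getElem?_eq_some_iff.mp h6.symm
      obtain ⟨h9, h10⟩ := h8
      have h11 := (List.forall₂_iff_get.mp h3).2 (ofDual k / 2) (by simp [word]; omega) (by omega)
      simp only [List.get_eq_getElem] at h11
      rw [← h10] at h11
      simp only [word, List.getElem_map, List.getElem_range] at h11
      have h12 := h11.1
      have h13 := h11.2
      simp only at h12 h13
      rcases Nat.mod_two_eq_zero_or_one (ofDual k) with h14 | h14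
      · have e1 : k = toDual (2 * (ofDual k / 2)) := by
          change (ofDual k : ℕ) = 2 * (ofDual k / 2)
          omega
        have e2 : tau f k = toDual (2 * f (ofDual k / 2)) := by
          unfold tau
          rw [h14, add_zero]
        rw [e2]
        calc m i k = m i (toDual (2 * (ofDual k / 2))) := by rw [← e1]
          _ ≤ _ := h12
      · have e1 : k = toDual (2 * (ofDual k / 2) + 1) := by
          change (ofDual k : ℕ) = 2 * (ofDual k / 2) + 1
          omega
        have e2 : tau f k = toDual (2 * f (ofDual k / 2) + 1) := by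
          unfold tau
          rw [h14]
        rw [e2]
        calc m i k = m i (toDual (2 * (ofDual k / 2) + 1)) := by rw [← e1]
          _ ≤ _ := h13
    · rw [hN i k h5]; exact Nat.zero_le _
  · rw [Finsupp.mapDomain_notin_range _ _ hr]
    exact Nat.zero_le _

theorem lex_map_le {τ : T → T} (hτ : StrictMono τ) {a b : T →₀ ℕ} (h : toLex a ≤ toLex b) :
    toLex (a.mapDomain τ) ≤ toLex (b.mapDomain τ) := by
  rcases h.lt_or_eq with h1 | h1
  · exact (lex_map hτ h1).le
  · have : a = b := toLex.injective h1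
    rw [this]

noncomputable abbrev D : MonomialOrder T := MonomialOrder.lex

theorem deg_rename {τ : T → T} (hτ : StrictMono τ) {g : MvPolynomial T ℂ} (hg : g ≠ 0) :
    D.degree (rename τ g) = (D.degree g).mapDomain τ := by
  classical
  apply D.toSyn.injective
  apply le_antisymm
  · rw [D.degree_le_iff]
    intro c hc
    rw [support_rename_of_injective hτ.injective, Finset.mem_image] at hc
    obtain ⟨c', hc', rfl⟩ := hc
    exact lex_map_le hτ (D.le_degree hc')
  · apply D.le_degree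
    rw [mem_support_iff, coeff_rename_mapDomain _ hτ.injective]
    exact D.leadingCoeff_ne_zero_iff.mpr hg

theorem reduce {τ : T → T} (hτ : StrictMono τ) {f g : MvPolynomial T ℂ} (hf : f ≠ 0) (hg : g ≠ 0)
    (hle : (D.degree g).mapDomain τ ≤ D.degree f) :
    ∃ q : MvPolynomial T ℂ, f - q * rename τ g = 0 ∨
      D.toSyn (D.degree (f - q * rename τ g)) < D.toSyn (D.degree f) := by
  classical
  set δ := D.degree f - (D.degree g).mapDomain τ with hδ
  have hsum : δ + (D.degree g).mapDomain τ = D.degree f := tsub_add_cancel_of_le hle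
  set q : MvPolynomial T ℂ := monomial δ (D.leadingCoeff f / D.leadingCoeff g) with hq
  refine ⟨q, ?_⟩
  by_cases h0 : f - q * rename τ g = 0
  · exact Or.inl h0
  right
  have h1 : coeff (D.degree f) (q * rename τ g) = D.leadingCoeff f := by
    rw [← hsum, hq, coeff_monomial_mul, coeff_rename_mapDomain _ hτ.injective]
    have : coeff (D.degree g) g ≠ 0 := D.leadingCoeff_ne_zero_iff.mpr hg
    have h2 : D.leadingCoeff g = coeff (D.degree g) g := rfl
    rw [h2]
    field_simp
  have h3 : D.toSyn (D.degree (q * rename τ g)) ≤ D.toSyn (D.degree f) := by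
    refine D.degree_mul_le.trans ?_
    rw [deg_rename hτ hg, ← hsum, map_add, map_add]
    exact add_le_add_left (D.degree_monomial_le _) _
  have h4 : D.toSyn (D.degree (f - q * rename τ g)) ≤ D.toSyn (D.degree f) :=
    D.degree_sub_le.trans (sup_le le_rfl h3)
  refine lt_of_le_of_ne h4 fun h5 => ?_
  have h6 : D.degree (f - q * rename τ g) = D.degree f := D.toSyn.injective h5
  have h7 := D.degree_mem_support h0
  rw [h6, mem_support_iff, coeff_sub, h1] at h7
  exact h7 (sub_self _)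

theorem cohen (I : Ideal (MvPolynomial T ℂ))
    (hI : ∀ ρ : ℕ → ℕ, StrictMono ρ → ∀ f ∈ I, rename (tau ρ) f ∈ I) :
    ∃ G : Finset (MvPolynomial T ℂ), (∀ g ∈ G, g ∈ I) ∧
      I ≤ Ideal.span {h | ∃ ρ : ℕ → ℕ, StrictMono ρ ∧ ∃ g ∈ G, h = rename (tau ρ) g} := by
  classical
  have key : ∃ G : Finset (MvPolynomial T ℂ), (∀ g ∈ G, g ∈ I ∧ g ≠ 0) ∧
      ∀ f, f ∈ I ∧ f ≠ 0 → ∃ g ∈ G, ∃ ρ : ℕ → ℕ, StrictMono ρ ∧
        (D.degree g).mapDomain (tau ρ) ≤ D.degree f := by
    by_contra hcon
    push Not at hcon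
    obtain ⟨F, hF1, hF2⟩ := exists_seq_of_forall_finset_exists
      (fun f : MvPolynomial T ℂ => f ∈ I ∧ f ≠ 0)
      (fun g f => ∀ ρ : ℕ → ℕ, StrictMono ρ → ¬ (D.degree g).mapDomain (tau ρ) ≤ D.degree f)
      (by
        intro s hs
        obtain ⟨f, hf, hf2⟩ := hcon s hs
        exact ⟨f, hf, fun x hx ρ hρ => hf2 x hx ρ hρ⟩)
    obtain ⟨i, j, hij, ρ, hρ, h⟩ := wqo fun k => D.degree (F k)
    exact hF2 i j hij ρ hρ h
  obtain ⟨G, hG1, hG2⟩ := key
  refine ⟨G, fun g hg => (hG1 g hg).1, ?_⟩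
  set J := Ideal.span {h | ∃ ρ : ℕ → ℕ, StrictMono ρ ∧ ∃ g ∈ G, h = rename (tau ρ) g} with hJ
  have main : ∀ d : D.syn, ∀ f ∈ I, f ≠ 0 → D.toSyn (D.degree f) = d → f ∈ J := by
    intro d
    induction d using WellFoundedLT.induction with
    | ind d ih =>
      intro f hf hf0 hd
      obtain ⟨g, hg, ρ, hρ, hle⟩ := hG2 f ⟨hf, hf0⟩
      obtain ⟨q, hq⟩ := reduce (tau_strictMono hρ) hf0 (hG1 g hg).2 hle
      have hr : q * rename (tau ρ) g ∈ J :=
        Ideal.mul_mem_left _ _ (Ideal.subset_span ⟨ρ, hρ, g, hg, rfl⟩)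
      have hsub : f - q * rename (tau ρ) g ∈ I :=
        Ideal.sub_mem _ hf (Ideal.mul_mem_left _ _ (hI ρ hρ g (hG1 g hg).1))
      have h2 : f - q * rename (tau ρ) g ∈ J := by
        by_cases h0 : f - q * rename (tau ρ) g = 0
        · rw [h0]; exact Ideal.zero_mem _
        · exact ih _ (hd ▸ hq.resolve_left h0) _ hsub h0 rfl
      have := Ideal.add_mem _ h2 hr
      rwa [sub_add_cancel] at this
  intro f hf
  by_cases hf0 : f = 0
  · rw [hf0]; exact Ideal.zero_mem _
  · exact main _ f hf hf0 rfl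

end Pool.Agent.W61h.FGS
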