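import Pool.Agent.W61h.FGS.Main

set_option autoImplicit false

namespace Pool.Agent.W61h.FGS

open MvPolynomial OrderDual Pool.Agent.H503R3.EGB

theorem act_rel (ρ : ℕ → ℕ) (hρ : Function.Injective ρ) (i l j k : ℕ) :
    act ρ hρ (rel i l j k) = rel (ρ i) (ρ l) (ρ j) (ρ k) := by
  unfold rel
  simp only [map_sub, map_add, act_y]

theorem fg_of_stable (I : Ideal R)
    (hI : ∀ (ρ : ℕ → ℕ) (hρ : Function.Injective ρ) (p : R), p ∈ I → act ρ hρ p ∈ I)
    (h3 : r3 ∈ I) (h4 : rel 0 1 2 3 ∈ I) : FGUpToSymmetry I := by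
  classical
  set E : Ideal (MvPolynomial T ℂ) := Ideal.span (psi '' (I : Set R)) with hE
  have hEst : ∀ ρ : ℕ → ℕ, StrictMono ρ → ∀ f ∈ E, rename (tau ρ) f ∈ E := by
    intro ρ hρ f hf
    have : E ≤ E.comap (rename (tau ρ) : MvPolynomial T ℂ →ₐ[ℂ] MvPolynomial T ℂ) := by
      rw [hE, Ideal.span_le]
      rintro _ ⟨p, hp, rfl⟩
      change rename (tau ρ) (psi p) ∈ Ideal.span (psi '' (I : Set R))
      rw [psi_act ρ hρ.injective]
      exact Ideal.subset_span ⟨_, hI ρ hρ.injective p hp, rfl⟩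
    exact this hf
  obtain ⟨G, hG1, hG2⟩ := cohen E hEst
  have hP : ∀ g ∈ G, ∃ P : Finset R, (P : Set R) ⊆ I ∧ g ∈ Ideal.span (psi '' (P : Set R)) := by
    intro g hg
    obtain ⟨Q, hQ1, hQ2⟩ := Submodule.mem_span_finite_of_mem_span (hG1 g hg)
    rw [Finset.subset_set_image_iff] at hQ1
    obtain ⟨P, hP1, hP2⟩ := hQ1
    refine ⟨P, hP1, ?_⟩
    rw [← Finset.coe_image, hP2]
    exact hQ2
  choose! P hP1 hP2 using hP
  set F : Set R := ((G.biUnion P : Finset R) : Set R) ∪ {r3, rel 0 1 2 3} with hF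
  have hFI : F ⊆ I := by
    intro p hp
    rcases hp with hp | hp
    · rw [Finset.mem_coe, Finset.mem_biUnion] at hp
      obtain ⟨g, hg, hp⟩ := hp
      exact hP1 g hg hp
    · rcases hp with rfl | hp
      · exact h3
      · rw [Set.mem_singleton_iff] at hp
        rw [hp]; exact h4
  refine ⟨F, (Finset.finite_toSet _).union (Set.toFinite _), hFI, ?_⟩
  set J : Ideal R := Ideal.span {h | ∃ σ : Equiv.Perm ℕ, {i | σ i ≠ i}.Finite ∧
      ∃ g ∈ F, h = act σ σ.injective g} with hJ
  have hactJ : ∀ (ρ : ℕ → ℕ) (hρ : Function.Injective ρ), ∀ p ∈ F, act ρ hρ p ∈ J := by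
    intro ρ hρ p hp
    obtain ⟨σ, h1, h2⟩ := act_eq_perm ρ hρ p
    rw [h2]
    exact Ideal.subset_span ⟨σ, h1, p, hp, rfl⟩
  have hr3 : r3 ∈ J := by
    have h := hactJ id Function.injective_id r3 (Or.inr (Or.inl rfl))
    have h5 : act id Function.injective_id r3 = r3 := by
      unfold r3
      simp only [map_sub, map_add, act_y, id]
    rwa [h5] at h
  have hr4 : ∀ i l j k : ℕ, i ≠ l → i ≠ j → i ≠ k → l ≠ j → l ≠ k → j ≠ k →
      rel i l j k ∈ J := by
    intro i l j k h1 h2 h3' h4' h5 h6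
    obtain ⟨σ, h7, h8⟩ := exists_perm {0, 1, 2, 3}
      (fun n => if n = 0 then i else if n = 1 then l else if n = 2 then j else k) (by
        intro a ha b hb hab
        simp only [Finset.coe_insert, Finset.coe_singleton, Set.mem_insert_iff,
          Set.mem_singleton_iff] at ha hb
        rcases ha with rfl | rfl | rfl | rfl <;> rcases hb with rfl | rfl | rfl | rfl <;>
          simp at hab ⊢ <;> omega)
    have h9 : act σ σ.injective (rel 0 1 2 3) ∈ J :=
      Ideal.subset_span ⟨σ, h7, _, Or.inr (Or.inr rfl), rfl⟩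
    rw [act_rel, h8 0 (by simp), h8 1 (by simp), h8 2 (by simp), h8 3 (by simp)] at h9
    simpa using h9
  have hth : ∀ q : R, theta (psi q) - q ∈ J := by
    intro q
    have : (Ideal.Quotient.mkₐ ℂ J).comp (theta.comp psi) = Ideal.Quotient.mkₐ ℂ J := by
      apply algHom_ext
      intro e
      rw [AlgHom.comp_apply, AlgHom.comp_apply, theta_psi_X]
      have hX : (X e : R) = y e.1.1 e.1.2 := by
        unfold y; rw [dif_pos e.2]
      rw [hX]
      change Ideal.Quotient.mk J _ = Ideal.Quotient.mk J _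
      rw [Ideal.Quotient.mk_eq_mk_iff_sub_mem]
      exact diff_mem J hr3 hr4 _ _ e.2
    have h := DFunLike.congr_fun this q
    rw [AlgHom.comp_apply, AlgHom.comp_apply] at h
    change Ideal.Quotient.mk J _ = Ideal.Quotient.mk J _ at h
    rwa [Ideal.Quotient.mk_eq_mk_iff_sub_mem] at h
  have hEJ : E ≤ J.comap theta := by
    refine hG2.trans ?_
    rw [Ideal.span_le]
    rintro _ ⟨ρ, hρ, g, hg, rfl⟩
    have h10 : Ideal.span (psi '' (P g : Set R)) ≤
        J.comap (theta.comp (rename (tau ρ) : MvPolynomial T ℂ →ₐ[ℂ] MvPolynomial T ℂ)) := by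
      rw [Ideal.span_le]
      rintro _ ⟨p, hp, rfl⟩
      change theta (rename (tau ρ) (psi p)) ∈ J
      rw [psi_act ρ hρ.injective]
      have h11 := hth (act ρ hρ.injective p)
      have h12 := hactJ ρ hρ.injective p (Or.inl (by
        rw [Finset.mem_coe, Finset.mem_biUnion]
        exact ⟨g, hg, hp⟩))
      have := Ideal.add_mem _ h11 h12
      rwa [sub_add_cancel] at this
    exact h10 (hP2 g hg)
  apply le_antisymm
  · intro p hp
    have h13 : theta (psi p) ∈ J := hEJ (Ideal.subset_span ⟨p, hp, rfl⟩)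
    have h14 := Ideal.sub_mem _ h13 (hth p)
    rwa [sub_sub_cancel] at h14
  · rw [hJ, Ideal.span_le]
    rintro _ ⟨σ, _, g, hg, rfl⟩
    exact hI _ _ g (hFI hg)

theorem phi_act (f : MvPolynomial (Fin 2) ℂ) (ρ : ℕ → ℕ) (hρ : Function.Injective ρ) (p : R) :
    phi f (act ρ hρ p) = rename ρ (phi f p) := by
  have : (phi f).comp (act ρ hρ) =
      (rename ρ : MvPolynomial ℕ ℂ →ₐ[ℂ] MvPolynomial ℕ ℂ).comp (phi f) := by
    apply algHom_ext
    intro e
    rw [AlgHom.comp_apply, AlgHom.comp_apply]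
    unfold phi act
    rw [rename_X, aeval_X, aeval_X]
    rw [← AlgHom.comp_apply, comp_aeval]
    congr 2
    funext i
    fin_cases i
    · simp [mapIdx]
    · simp [mapIdx]
  exact DFunLike.congr_fun this p

theorem fg_add (g h : Polynomial ℂ) :
    FGUpToSymmetry (kerPhi (Polynomial.aeval (X 0) g + Polynomial.aeval (X 1) h)) := by
  set f : MvPolynomial (Fin 2) ℂ := Polynomial.aeval (X 0) g + Polynomial.aeval (X 1) h with hf
  have hy : ∀ i j : ℕ, i ≠ j → phi f (y i j) = Polynomial.aeval (X i : MvPolynomial ℕ ℂ) g +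
      Polynomial.aeval (X j : MvPolynomial ℕ ℂ) h := by
    intro i j hij
    unfold y phi
    rw [dif_pos hij, aeval_X, hf, map_add, ← Polynomial.aeval_algHom_apply,
      ← Polynomial.aeval_algHom_apply, aeval_X, aeval_X]
    rfl
  apply fg_of_stable
  · intro ρ hρ p hp
    have hp' : phi f p = 0 := hp
    change phi f (act ρ hρ p) = 0
    rw [phi_act, hp', map_zero]
  · change phi f r3 = 0
    unfold r3
    simp only [map_sub, map_add]
    rw [hy 0 1 (by decide), hy 1 2 (by decide), hy 2 0 (by decide), hy 1 0 (by decide),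
      hy 2 1 (by decide), hy 0 2 (by decide)]
    ring
  · change phi f (rel 0 1 2 3) = 0
    unfold rel
    simp only [map_sub, map_add]
    rw [hy 0 2 (by decide), hy 0 3 (by decide), hy 1 2 (by decide), hy 1 3 (by decide)]
    ring

end Pool.Agent.W61h.FGS
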