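import Pool.Agent.H503R3.EGB.Defs
import Pool.Agent.W61h.FGS.Cohen

/-!
# The kernel of `y_ij ↦ g(x_i) + h(x_j)` is finitely generated up to symmetry
-/

set_option autoImplicit false

namespace Pool.Agent.W61h.FGS

open MvPolynomial OrderDual Pool.Agent.H503R3.EGB

/-- extension of a map, injective on a finite set, to a finitary permutation -/
theorem exists_perm (A : Finset ℕ) (ρ : ℕ → ℕ) (hρ : Set.InjOn ρ A) :
    ∃ σ : Equiv.Perm ℕ, {i | σ i ≠ i}.Finite ∧ ∀ a ∈ A, σ a = ρ a := by
  classical
  induction A using Finset.induction_on with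
  | empty => exact ⟨1, by simp, by simp⟩
  | insert v A hv ih =>
    obtain ⟨σ, h1, h2⟩ := ih (hρ.mono (by simp))
    refine ⟨Equiv.swap (σ v) (ρ v) * σ, ?_, ?_⟩
    · refine (h1.union (Set.toFinite {σ v, ρ v})).subset ?_
      intro i hi
      by_cases h3 : σ i = i
      · right
        simp only [Set.mem_setOf_eq, Equiv.Perm.mul_apply, h3] at hi
        by_contra h4
        simp only [Set.mem_insert_iff, Set.mem_singleton_iff, not_or] at h4
        exact hi (Equiv.swap_apply_of_ne_of_ne h4.1 h4.2)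
      · left; exact h3
    · intro a ha
      rw [Finset.mem_insert] at ha
      rw [Equiv.Perm.mul_apply]
      by_cases hav : a = v
      · subst hav
        exact Equiv.swap_apply_left _ _
      · have haA : a ∈ A := ha.resolve_left hav
        rw [h2 a haA]
        refine Equiv.swap_apply_of_ne_of_ne ?_ ?_
        · rw [← h2 a haA]
          exact fun h => hav (σ.injective h)
        · intro h
          exact hav (hρ (by simp [haA]) (by simp) h)

theorem act_eq_perm (ρ : ℕ → ℕ) (hρ : Function.Injective ρ) (p : R) :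
    ∃ σ : Equiv.Perm ℕ, {i | σ i ≠ i}.Finite ∧ act ρ hρ p = act σ σ.injective p := by
  classical
  obtain ⟨s, q, rfl⟩ := exists_finset_rename p
  obtain ⟨σ, h1, h2⟩ := exists_perm (s.image (fun e : Idx => e.1.1) ∪ s.image (fun e : Idx => e.1.2))
    ρ hρ.injOn
  refine ⟨σ, h1, ?_⟩
  unfold act
  rw [rename_rename, rename_rename]
  congr 2
  funext x
  apply Subtype.ext
  change (ρ x.1.1.1, ρ x.1.1.2) = (σ x.1.1.1, σ x.1.1.2)
  rw [h2 x.1.1.1 (by
    rw [Finset.mem_union]; left; exact Finset.mem_image.mpr ⟨x.1, x.2, rfl⟩),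
    h2 x.1.1.2 (by
    rw [Finset.mem_union]; right; exact Finset.mem_image.mpr ⟨x.1, x.2, rfl⟩)]

/-- `y_ij` -/
noncomputable def y (i j : ℕ) : R := if h : i ≠ j then X ⟨(i, j), h⟩ else 0

theorem act_y (ρ : ℕ → ℕ) (hρ : Function.Injective ρ) (i j : ℕ) :
    act ρ hρ (y i j) = y (ρ i) (ρ j) := by
  unfold y
  by_cases h : i = j
  · subst h; simp
  · have h2 : ρ i ≠ ρ j := hρ.ne h
    rw [dif_pos h, dif_pos h2]
    unfold act
    rw [rename_X]
    rfl

noncomputable def psi : R →ₐ[ℂ] MvPolynomial T ℂ :=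
  aeval fun p : Idx => X (toDual (2 * p.1.1)) + X (toDual (2 * p.1.2 + 1))

theorem psi_act (ρ : ℕ → ℕ) (hρ : Function.Injective ρ) (p : R) :
    rename (tau ρ) (psi p) = psi (act ρ hρ p) := by
  have : (rename (tau ρ) : MvPolynomial T ℂ →ₐ[ℂ] MvPolynomial T ℂ).comp psi =
      psi.comp (act ρ hρ) := by
    apply algHom_ext
    intro e
    rw [AlgHom.comp_apply, AlgHom.comp_apply]
    unfold psi act
    rw [aeval_X, rename_X, aeval_X, map_add, rename_X, rename_X]
    have h1 : tau ρ (toDual (2 * e.1.1)) = toDual (2 * ρ e.1.1) := by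
      change 2 * ρ (2 * e.1.1 / 2) + 2 * e.1.1 % 2 = 2 * ρ e.1.1
      rw [show 2 * e.1.1 / 2 = e.1.1 by omega]; omega
    have h2 : tau ρ (toDual (2 * e.1.2 + 1)) = toDual (2 * ρ e.1.2 + 1) := by
      change 2 * ρ ((2 * e.1.2 + 1) / 2) + (2 * e.1.2 + 1) % 2 = 2 * ρ e.1.2 + 1
      rw [show (2 * e.1.2 + 1) / 2 = e.1.2 by omega]; omega
    rw [h1, h2]
    rfl
  exact DFunLike.congr_fun this p

noncomputable def al (i : ℕ) : R :=
  if i = 0 then 0 else if i = 1 then y 1 2 - y 0 2 else y i 1 - y 0 1

noncomputable def be (j : ℕ) : R := if j = 0 then y 0 1 + y 2 0 - y 2 1 else y 0 j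

noncomputable def theta : MvPolynomial T ℂ →ₐ[ℂ] R :=
  aeval fun n : T => if ofDual n % 2 = 0 then al (ofDual n / 2) else be (ofDual n / 2)

theorem theta_psi_X (e : Idx) : theta (psi (X e)) = al e.1.1 + be e.1.2 := by
  unfold theta psi
  rw [aeval_X, map_add, aeval_X, aeval_X]
  have h1 : (2 * e.1.1) % 2 = 0 := by omega
  have h2 : ¬ (2 * e.1.2 + 1) % 2 = 0 := by omega
  simp only [ofDual_toDual, h1, h2, if_true, if_false]
  rw [show 2 * e.1.1 / 2 = e.1.1 by omega, show (2 * e.1.2 + 1) / 2 = e.1.2 by omega]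

noncomputable def rel (i l j k : ℕ) : R := y i j - y i k - y l j + y l k

noncomputable def r3 : R := y 0 1 + y 1 2 + y 2 0 - y 1 0 - y 2 1 - y 0 2

theorem diff_mem (J : Ideal R) (h3 : r3 ∈ J)
    (h4 : ∀ i l j k : ℕ, i ≠ l → i ≠ j → i ≠ k → l ≠ j → l ≠ k → j ≠ k → rel i l j k ∈ J)
    (i j : ℕ) (hij : i ≠ j) : al i + be j - y i j ∈ J := by
  by_cases hi : i = 0
  · subst hi
    have hj : j ≠ 0 := hij.symm
    have : al 0 + be j - y 0 j = 0 := by
      unfold al be; rw [if_pos rfl, if_neg hj]; ring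
    rw [this]; exact Ideal.zero_mem _
  · by_cases hj : j = 0
    · subst hj
      by_cases hi1 : i = 1
      · subst hi1
        have : al 1 + be 0 - y 1 0 = r3 := by
          unfold al be r3; rw [if_neg hi, if_pos rfl, if_pos rfl]; ring
        rw [this]; exact h3
      · by_cases hi2 : i = 2
        · subst hi2
          have : al 2 + be 0 - y 2 0 = 0 := by
            unfold al be; rw [if_neg hi, if_neg hi1, if_pos rfl]; ring
          rw [this]; exact Ideal.zero_mem _
        · have : al i + be 0 - y i 0 = - rel i 2 0 1 := by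
            unfold al be rel; rw [if_neg hi, if_neg hi1, if_pos rfl]; ring
          rw [this]
          exact Ideal.neg_mem_iff _ |>.mpr (h4 i 2 0 1 hi2 hi hi1 (by omega) (by omega) (by omega))
    · by_cases hi1 : i = 1
      · subst hi1
        by_cases hj2 : j = 2
        · subst hj2
          have : al 1 + be 2 - y 1 2 = 0 := by
            unfold al be; rw [if_neg hi, if_pos rfl, if_neg hj]; ring
          rw [this]; exact Ideal.zero_mem _
        · have : al 1 + be j - y 1 j = - rel 1 0 j 2 := by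
            unfold al be rel; rw [if_neg hi, if_pos rfl, if_neg hj]; ring
          rw [this]
          exact Ideal.neg_mem_iff _ |>.mpr
            (h4 1 0 j 2 (by omega) hij (by omega) (Ne.symm hj) (by omega) hj2)
      · by_cases hj1 : j = 1
        · subst hj1
          have : al i + be 1 - y i 1 = 0 := by
            unfold al be; rw [if_neg hi, if_neg hi1, if_neg hj]; ring
          rw [this]; exact Ideal.zero_mem _
        · have : al i + be j - y i j = - rel i 0 j 1 := by
            unfold al be rel; rw [if_neg hi, if_neg hi1, if_neg hj]; ring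
          rw [this]
          exact Ideal.neg_mem_iff _ |>.mpr
            (h4 i 0 j 1 hi hij hi1 (Ne.symm hj) (by omega) hj1)

end Pool.Agent.W61h.FGS
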